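import Pool.Agent.Y472.G.Defs
import Pool.Agent.H776R3.GapVol.Sine

/-!
# The product formula for the kernel
-/

set_option autoImplicit false

open Finset Pool.Agent.W711.HT Pool.Agent.Y472
open scoped Real

namespace Pool.Agent.Y238.CG

/-! ### Products of sines -/

/-- `2 sin (π k / N)` -/
noncomputable def sn (N k : ℕ) : ℝ := 2 * Real.sin (π * k / N)

lemma Sd_zero (N : ℕ) : Sd N 0 = 1 := by simp [Sd]

lemma Sd_succ (N d : ℕ) : Sd N (d + 1) = Sd N d * sn N (d + 1) := by
  unfold Sd sn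
  rw [prod_range_succ]
  push_cast
  rfl

lemma Sd_eq (N d : ℕ) : Sd N d = ∏ k ∈ range d, (2 * Real.sin (π * ((k + 1 : ℕ) : ℝ) / N)) := by
  unfold Sd
  refine prod_congr rfl fun k _ => ?_
  push_cast
  ring

lemma Sd_pos {N d : ℕ} (hd : d < N) : 0 < Sd N d := by
  rw [Sd_eq]
  refine prod_pos fun k hk => ?_
  rw [mem_range] at hk
  have := GapVol.sin_pos_of (M := N) (j := k + 1) (by omega) (by omega)
  positivity

lemma Sd_ne {N d : ℕ} (hd : d < N) : (Sd N d : ℂ) ≠ 0 := by
  exact_mod_cast (Sd_pos hd).ne'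

lemma Sd_mul {N n : ℕ} (hn : n < N) : Sd N n * Sd N (N - 1 - n) = N := by
  have hN : 0 < N := by omega
  have h0 : Sd N (N - 1) = N := by
    rw [Sd_eq]
    exact GapVol.prod_sin N hN
  rw [← h0, Sd_eq, Sd_eq, Sd_eq]
  obtain ⟨d, hd⟩ : ∃ d, N - 1 = n + d := ⟨N - 1 - n, by omega⟩
  rw [hd, prod_range_add, show n + d - n = d by omega]
  congr 1
  rw [← prod_range_reflect]
  refine prod_congr rfl fun j hj => ?_
  rw [mem_range] at hj
  have h1 := GapVol.sin_symm (M := N) (j := n + j + 1) (by omega) hN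
  have h2 : N - (n + j + 1) = d - 1 - j + 1 := by omega
  rw [h2] at h1
  rw [h1]

/-! ### The binomial theorem at a root of unity -/

/-- the Gaussian binomial coefficients -/
noncomputable def bin (N n k : ℕ) : ℂ := if k ≤ n then (Sd N n : ℂ) / (Sd N k * Sd N (n - k)) else 0

lemma bin_zero {N n : ℕ} (hn : n < N) : bin N n 0 = 1 := by
  have h := Sd_ne hn
  unfold bin
  rw [if_pos (Nat.zero_le _), Sd_zero, Nat.sub_zero, Complex.ofReal_one, one_mul, div_self h]

lemma bin_self {N n : ℕ} (hn : n < N) : bin N n n = 1 := by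
  have h := Sd_ne hn
  unfold bin
  rw [if_pos le_rfl, Nat.sub_self, Sd_zero, Complex.ofReal_one, mul_one, div_self h]

lemma bin_lt {N n k : ℕ} (hk : n < k) : bin N n k = 0 := by
  unfold bin
  rw [if_neg (by omega)]

lemma sin_exp (a b : ℂ) : 2 * Complex.sin a * Complex.exp (-(Complex.I * b)) +
    2 * Complex.sin b * Complex.exp (Complex.I * a) = 2 * Complex.sin (a + b) := by
  rw [show -(Complex.I * b) = (-b) * Complex.I by ring, show Complex.I * a = a * Complex.I by ring,
    Complex.exp_mul_I, Complex.exp_mul_I, Complex.sin_add, Complex.cos_neg, Complex.sin_neg]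
  ring

lemma pascal {N n k : ℕ} (hn : n + 1 < N) (hk : k ≤ n) : bin N (n + 1) (k + 1) =
    bin N n (k + 1) * Complex.exp (-(Complex.I * (π * ((k : ℂ) + 1) / N))) +
      bin N n k * Complex.exp (Complex.I * (π * ((n : ℂ) - k) / N)) := by
  rcases Nat.lt_or_ge k n with h | h
  · obtain ⟨e, rfl⟩ : ∃ e, n = k + 1 + e := ⟨n - (k + 1), by omega⟩
    have h1 := Sd_ne (N := N) (d := k) (by omega)
    have h2 := Sd_ne (N := N) (d := e) (by omega)
    have h3 : (sn N (k + 1) : ℂ) ≠ 0 := by
      have := Sd_ne (N := N) (d := k + 1) (by omega)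
      rw [Sd_succ, Complex.ofReal_mul] at this
      exact right_ne_zero_of_mul this
    have h4 : (sn N (e + 1) : ℂ) ≠ 0 := by
      have := Sd_ne (N := N) (d := e + 1) (by omega)
      rw [Sd_succ, Complex.ofReal_mul] at this
      exact right_ne_zero_of_mul this
    have h5 := Sd_ne (N := N) (d := k + 1 + e) (by omega)
    have key := sin_exp (π * ((e : ℂ) + 1) / N) (π * ((k : ℂ) + 1) / N)
    have s1 : (sn N (e + 1) : ℂ) = 2 * Complex.sin (π * ((e : ℂ) + 1) / N) := by
      unfold sn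
      push_cast
      rfl
    have s2 : (sn N (k + 1) : ℂ) = 2 * Complex.sin (π * ((k : ℂ) + 1) / N) := by
      unfold sn
      push_cast
      rfl
    have s3 : (sn N (k + 1 + e + 1) : ℂ) =
        2 * Complex.sin (π * ((e : ℂ) + 1) / N + π * ((k : ℂ) + 1) / N) := by
      unfold sn
      push_cast
      congr 2
      ring
    unfold bin
    rw [if_pos (by omega), if_pos (by omega), if_pos (by omega),
      show k + 1 + e + 1 - (k + 1) = e + 1 by omega, show k + 1 + e - (k + 1) = e by omega,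
      show k + 1 + e - k = e + 1 by omega, Sd_succ N (k + 1 + e), Sd_succ N e, Sd_succ N k]
    rw [show (((k + 1 + e : ℕ) : ℂ) - k) = (e : ℂ) + 1 by push_cast; ring]
    push_cast only [Complex.ofReal_mul]
    rw [s3, ← key, ← s1, ← s2]
    field_simp
  · have hkn : k = n := by omega
    subst hkn
    rw [bin_self hn, bin_lt (Nat.lt_succ_self k), bin_self (by omega), sub_self, mul_zero, zero_div,
      mul_zero, Complex.exp_zero]
    ring

/-- `∏_{j<n} (1 + x e^{i π (2 j + 1 - n) / N})` -/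
noncomputable def Pn (N n : ℕ) (x : ℂ) : ℂ :=
  ∏ j ∈ range n, (1 + x * Complex.exp (Complex.I * (π * (2 * (j : ℂ) + 1 - n) / N)))

lemma Pn_eq {N : ℕ} : ∀ n : ℕ, n < N → ∀ x : ℂ, Pn N n x = ∑ k ∈ range (n + 1), bin N n k * x ^ k
  | 0, hn, x => by
    rw [show range (0 + 1) = {0} from rfl, sum_singleton, bin_zero hn]
    simp [Pn]
  | n + 1, hn, x => by
    have ih := Pn_eq (N := N) n (by omega) (x * Complex.exp (-(Complex.I * (π / N))))
    have h1 : Pn N (n + 1) x = Pn N n (x * Complex.exp (-(Complex.I * (π / N)))) *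
        (1 + x * Complex.exp (Complex.I * (π * n / N))) := by
      unfold Pn
      rw [prod_range_succ]
      congr 1
      · refine prod_congr rfl fun j _ => ?_
        rw [mul_assoc, ← Complex.exp_add]
        congr 3
        push_cast
        ring
      · congr 3
        push_cast
        ring
    rw [h1, ih, sum_range_succ' _ (n + 1), bin_zero hn, pow_zero, mul_one]
    have h2 : ∀ k ∈ range (n + 1), bin N (n + 1) (k + 1) * x ^ (k + 1) =
        bin N n (k + 1) * (x * Complex.exp (-(Complex.I * (π / N)))) ^ (k + 1) +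
        bin N n k * (x * Complex.exp (-(Complex.I * (π / N)))) ^ k *
          (x * Complex.exp (Complex.I * (π * n / N))) := by
      intro k hk
      rw [mem_range] at hk
      rw [pascal hn (by omega), mul_pow, mul_pow, ← Complex.exp_nat_mul, ← Complex.exp_nat_mul]
      have e1 : Complex.exp (-(Complex.I * (π * ((k : ℂ) + 1) / N))) =
          Complex.exp (((k + 1 : ℕ) : ℂ) * -(Complex.I * (π / N))) := by
        congr 1
        push_cast
        ring
      have e2 : Complex.exp (Complex.I * (π * ((n : ℂ) - k) / N)) =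
          Complex.exp ((k : ℂ) * -(Complex.I * (π / N))) *
            Complex.exp (Complex.I * (π * n / N)) := by
        rw [← Complex.exp_add]
        congr 1
        ring
      rw [e1, e2]
      ring
    rw [sum_congr rfl h2, sum_add_distrib]
    have h3 : ∑ k ∈ range (n + 1), bin N n k * (x * Complex.exp (-(Complex.I * (π / N)))) ^ k =
        ∑ k ∈ range (n + 1), bin N n (k + 1) *
          (x * Complex.exp (-(Complex.I * (π / N)))) ^ (k + 1) + 1 := by
      have h4 := sum_range_succ' (fun k => bin N n k *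
        (x * Complex.exp (-(Complex.I * (π / N)))) ^ k) (n + 1)
      rw [sum_range_succ, bin_lt (Nat.lt_succ_self n), zero_mul, add_zero, bin_zero (by omega),
        pow_zero, mul_one] at h4
      exact h4
    rw [mul_add, mul_one, sum_mul]
    nth_rewrite 1 [h3]
    ring


/-! ### The products as polynomials -/

open Polynomial in
/-- the product `C_n` as a polynomial -/
noncomputable def Dp (N n : ℕ) (χ : ℂ) : Polynomial ℂ :=
  (∑ k ∈ range (n + 1), C (bin N n k * Complex.exp (-(Complex.I * χ / 2)) ^ k) * X ^ k) *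
    ∑ k ∈ range (n + 1), C (bin N n k * Complex.exp (Complex.I * χ / 2) ^ k) * X ^ k

lemma half_deg (n : ℕ) (a : ℕ → ℂ) :
    (∑ k ∈ range (n + 1), Polynomial.C (a k) * Polynomial.X ^ k).natDegree ≤ n := by
  refine Polynomial.natDegree_sum_le_of_forall_le _ _ fun k hk => ?_
  rw [mem_range] at hk
  exact (Polynomial.natDegree_C_mul_X_pow_le _ _).trans (by omega)

lemma half_coeff (n : ℕ) (a : ℕ → ℂ) {m : ℕ} (hm : m ≤ n) :
    (∑ k ∈ range (n + 1), Polynomial.C (a k) * Polynomial.X ^ k).coeff m = a m := by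
  rw [Polynomial.finsetSum_coeff]
  simp only [Polynomial.coeff_C_mul, Polynomial.coeff_X_pow]
  rw [sum_eq_single m]
  · simp
  · intro b _ hb
    rw [if_neg (Ne.symm hb), mul_zero]
  · intro h
    exact absurd (mem_range.2 (by omega)) h

lemma Dp_deg (N n : ℕ) (χ : ℂ) : (Dp N n χ).natDegree ≤ 2 * n := by
  unfold Dp
  refine Polynomial.natDegree_mul_le.trans ?_
  have h1 := half_deg n (fun k => bin N n k * Complex.exp (-(Complex.I * χ / 2)) ^ k)
  have h2 := half_deg n (fun k => bin N n k * Complex.exp (Complex.I * χ / 2) ^ k)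
  omega

lemma Dp_top {N n : ℕ} (hn : n < N) (χ : ℂ) : (Dp N n χ).coeff (2 * n) = 1 := by
  unfold Dp
  rw [two_mul, Polynomial.coeff_mul_add_eq_of_natDegree_le
    (half_deg n (fun k => bin N n k * Complex.exp (-(Complex.I * χ / 2)) ^ k))
    (half_deg n (fun k => bin N n k * Complex.exp (Complex.I * χ / 2) ^ k)),
    half_coeff n _ le_rfl, half_coeff n _ le_rfl, bin_self hn, one_mul, one_mul, ← mul_pow,
    ← Complex.exp_add, neg_add_cancel, Complex.exp_zero, one_pow]

lemma Cn_eq {N n : ℕ} (hn : n < N) (χ u : ℂ) :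
    Cn N n χ u = Complex.exp (Complex.I * u) ^ n * (Dp N n χ).eval (Complex.exp (-(Complex.I * u))) := by
  have h1 : (Dp N n χ).eval (Complex.exp (-(Complex.I * u))) =
      Pn N n (Complex.exp (-(Complex.I * u)) * Complex.exp (-(Complex.I * χ / 2))) *
        Pn N n (Complex.exp (-(Complex.I * u)) * Complex.exp (Complex.I * χ / 2)) := by
    unfold Dp
    rw [Polynomial.eval_mul, Pn_eq n hn, Pn_eq n hn, Polynomial.eval_finsetSum,
      Polynomial.eval_finsetSum]
    congr 1
    · refine sum_congr rfl fun k _ => ?_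
      rw [Polynomial.eval_mul, Polynomial.eval_C, Polynomial.eval_pow, Polynomial.eval_X, mul_pow]
      ring
    · refine sum_congr rfl fun k _ => ?_
      rw [Polynomial.eval_mul, Polynomial.eval_C, Polynomial.eval_pow, Polynomial.eval_X, mul_pow]
      ring
  have h2 : ∀ j : ℕ, 2 * Complex.cos (χ / 2) + 2 * Complex.cos (u - π * (2 * (j : ℂ) + 1 - n) / N) =
      Complex.exp (Complex.I * u) * Complex.exp (-(Complex.I * (π * (2 * (j : ℂ) + 1 - n) / N))) *
      ((1 + Complex.exp (-(Complex.I * u)) * Complex.exp (-(Complex.I * χ / 2)) *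
          Complex.exp (Complex.I * (π * (2 * (j : ℂ) + 1 - n) / N))) *
        (1 + Complex.exp (-(Complex.I * u)) * Complex.exp (Complex.I * χ / 2) *
          Complex.exp (Complex.I * (π * (2 * (j : ℂ) + 1 - n) / N)))) := by
    intro j
    generalize π * (2 * (j : ℂ) + 1 - n) / N = a
    have e1 : Complex.exp (-(Complex.I * u)) = (Complex.exp (Complex.I * u))⁻¹ :=
      Complex.exp_neg _
    have e2 : Complex.exp (-(Complex.I * χ / 2)) = (Complex.exp (Complex.I * χ / 2))⁻¹ :=
      Complex.exp_neg _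
    have e3 : Complex.exp (-(Complex.I * a)) = (Complex.exp (Complex.I * a))⁻¹ :=
      Complex.exp_neg _
    have c1 : 2 * Complex.cos (χ / 2) = Complex.exp (Complex.I * χ / 2) +
        (Complex.exp (Complex.I * χ / 2))⁻¹ := by
      rw [Complex.two_cos, ← e2]
      congr 2 <;> ring
    have c2 : 2 * Complex.cos (u - a) = Complex.exp (Complex.I * u) * (Complex.exp (Complex.I * a))⁻¹ +
        (Complex.exp (Complex.I * u))⁻¹ * Complex.exp (Complex.I * a) := by
      rw [Complex.two_cos, ← e1, ← e3, ← Complex.exp_add, ← Complex.exp_add]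
      congr 2 <;> ring
    rw [c1, c2, e1, e2, e3]
    have n1 := Complex.exp_ne_zero (Complex.I * u)
    have n2 := Complex.exp_ne_zero (Complex.I * a)
    have n3 := Complex.exp_ne_zero (Complex.I * χ / 2)
    field_simp
    ring
  have h3 : ∏ j ∈ range n, Complex.exp (-(Complex.I * (π * (2 * (j : ℂ) + 1 - n) / N))) = 1 := by
    rw [← Complex.exp_sum]
    have h4 : ∀ m : ℕ, ∑ j ∈ range m, (2 * (j : ℂ) + 1 - n) = m * (m - n) := by
      intro m
      induction m with
      | zero => simp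
      | succ m ih =>
        rw [sum_range_succ, ih]
        push_cast
        ring
    have h5 : ∑ j ∈ range n, -(Complex.I * (π * (2 * (j : ℂ) + 1 - n) / N)) =
        -(Complex.I * (π / N)) * ∑ j ∈ range n, (2 * (j : ℂ) + 1 - n) := by
      rw [mul_sum]
      refine sum_congr rfl fun j _ => ?_
      ring
    rw [h5, h4, sub_self, mul_zero, mul_zero, Complex.exp_zero]
  rw [h1]
  unfold Cn Pn
  rw [prod_congr rfl fun j _ => h2 j, prod_mul_distrib, prod_mul_distrib, prod_mul_distrib,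
    prod_const, card_range, h3, mul_one]

/-! ### The integral -/

/-- the right side -/
noncomputable def II (N p q : ℕ) (ψ χ : ℂ) : ℂ :=
  1 / (2 * π) * ∫ t in (-π)..π, Cn N p χ (t + ψ / 2) * Cn N q χ (t - ψ / 2)

lemma int_exp (k : ℤ) : ∫ t in (-π)..π, Complex.exp (Complex.I * ((k : ℂ) * t)) =
    if k = 0 then (2 * π : ℂ) else 0 := by
  split_ifs with h
  · subst h
    simp
    ring
  · have hk : (k : ℂ) * Complex.I ≠ 0 := by
      apply mul_ne_zero
      · exact_mod_cast h
      · exact Complex.I_ne_zero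
    have h1 := integral_exp_mul_complex (a := -π) (b := π) hk
    have h2 : (fun t : ℝ => Complex.exp (Complex.I * ((k : ℂ) * t))) =
        fun t : ℝ => Complex.exp ((k : ℂ) * Complex.I * t) := by
      funext t
      congr 1
      ring
    rw [h2, h1]
    have h3 : Complex.exp ((k : ℂ) * Complex.I * (π : ℝ)) =
        Complex.exp ((k : ℂ) * Complex.I * ((-π : ℝ) : ℂ)) := by
      rw [Complex.exp_eq_exp_iff_exists_int]
      refine ⟨k, ?_⟩
      push_cast
      ring
    rw [h3, sub_self, zero_div]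

/-- the right side as a polynomial -/
noncomputable def PR (N p q : ℕ) (χ : ℂ) : Polynomial ℂ :=
  ∑ m ∈ range (2 * q + 1), Polynomial.C ((Dp N p χ).coeff (p + q - m) * (Dp N q χ).coeff m) *
    Polynomial.X ^ m

lemma II_eq {N p q : ℕ} (hN : p + q + 1 = N) (hpq : q ≤ p) (ψ χ : ℂ) :
    Complex.exp (Complex.I * ψ) ^ q * II N p q ψ χ = (PR N p q χ).eval (Complex.exp (Complex.I * ψ)) := by
  have h1 : ∀ t : ℝ, Cn N p χ (t + ψ / 2) * Cn N q χ (t - ψ / 2) =
      ∑ m ∈ range (2 * q + 1), ∑ l ∈ range (2 * p + 1),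
        (Dp N p χ).coeff l * (Dp N q χ).coeff m * Complex.exp (Complex.I * ψ / 2 *
          ((p : ℂ) - l - (q - m))) * Complex.exp (Complex.I * ((((p : ℤ) + q - l - m : ℤ) : ℂ) * t)) := by
    intro t
    rw [Cn_eq (by omega), Cn_eq (by omega),
      Polynomial.eval_eq_sum_range' (n := 2 * p + 1) (by have := Dp_deg N p χ; omega),
      Polynomial.eval_eq_sum_range' (n := 2 * q + 1) (by have := Dp_deg N q χ; omega),
      mul_sum, mul_sum, sum_mul_sum, sum_comm]
    refine sum_congr rfl fun m _ => sum_congr rfl fun l _ => ?_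
    rw [← Complex.exp_nat_mul, ← Complex.exp_nat_mul, ← Complex.exp_nat_mul, ← Complex.exp_nat_mul]
    have e : ∀ a b x1 x2 x3 x4 y1 y2 : ℂ, x1 + x2 + x3 + x4 = y1 + y2 →
        Complex.exp x1 * (a * Complex.exp x2) * (Complex.exp x3 * (b * Complex.exp x4)) =
        a * b * Complex.exp y1 * Complex.exp y2 := by
      intro a b x1 x2 x3 x4 y1 y2 h
      rw [mul_assoc (a * b), ← Complex.exp_add, ← h, Complex.exp_add, Complex.exp_add,
        Complex.exp_add]
      ring
    apply e
    push_cast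
    ring
  have h2 : ∫ t in (-π)..π, Cn N p χ (t + ψ / 2) * Cn N q χ (t - ψ / 2) =
      ∑ m ∈ range (2 * q + 1), ∑ l ∈ range (2 * p + 1),
        (Dp N p χ).coeff l * (Dp N q χ).coeff m * Complex.exp (Complex.I * ψ / 2 *
          ((p : ℂ) - l - (q - m))) * (if (p : ℤ) + q - l - m = 0 then (2 * π : ℂ) else 0) := by
    simp_rw [h1]
    have hc : ∀ k : ℤ, Continuous fun t : ℝ => Complex.exp (Complex.I * ((k : ℂ) * t)) := by
      intro k
      fun_prop
    rw [intervalIntegral.integral_finsetSum]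
    · refine sum_congr rfl fun m _ => ?_
      rw [intervalIntegral.integral_finsetSum]
      · refine sum_congr rfl fun l _ => ?_
        rw [intervalIntegral.integral_const_mul, int_exp]
      · intro l _
        exact (continuous_const.mul (hc _)).intervalIntegrable _ _
    · intro m _
      apply Continuous.intervalIntegrable
      refine continuous_finsetSum _ fun l _ => ?_
      exact continuous_const.mul (hc _)
  unfold II PR
  rw [h2, Polynomial.eval_finsetSum, mul_sum, mul_sum]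
  refine sum_congr rfl fun m hm => ?_
  rw [mem_range] at hm
  rw [sum_eq_single (p + q - m)]
  · rw [if_pos (by omega), Polynomial.eval_mul, Polynomial.eval_C, Polynomial.eval_pow,
      Polynomial.eval_X, ← Complex.exp_nat_mul, ← Complex.exp_nat_mul]
    have e1 : ((p + q - m : ℕ) : ℂ) = (p : ℂ) + q - m := by
      rw [Nat.cast_sub (by omega)]
      push_cast
      ring
    have e2 : Complex.exp ((m : ℂ) * (Complex.I * ψ)) = Complex.exp ((q : ℂ) * (Complex.I * ψ)) *
        Complex.exp (Complex.I * ψ / 2 * ((p : ℂ) - ((p + q - m : ℕ) : ℂ) - (q - m))) := by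
      rw [← Complex.exp_add, e1]
      congr 1
      ring
    have hpi : (π : ℂ) ≠ 0 := by exact_mod_cast Real.pi_ne_zero
    rw [e2]
    field_simp
  · intro l _ hl
    rw [if_neg (by omega), mul_zero]
  · intro h
    exact absurd (mem_range.2 (by omega)) h

lemma PR_deg (N p q : ℕ) (χ : ℂ) : (PR N p q χ).natDegree ≤ 2 * q := by
  unfold PR
  exact half_deg (2 * q) (fun m => (Dp N p χ).coeff (p + q - m) * (Dp N q χ).coeff m)

/-! ### Symmetries -/

lemma Cn_neg (N n : ℕ) (χ u : ℂ) : Cn N n χ (-u) = Cn N n χ u := by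
  unfold Cn
  rw [← prod_range_reflect]
  refine prod_congr rfl fun j hj => ?_
  rw [mem_range] at hj
  have e : ((n - 1 - j : ℕ) : ℂ) = (n : ℂ) - 1 - j := by
    rw [Nat.cast_sub (by omega), Nat.cast_sub (by omega)]
    push_cast
    ring
  rw [e, ← Complex.cos_neg (u - _)]
  congr 3
  ring

lemma II_flip (N p q : ℕ) (ψ χ : ℂ) : II N p q ψ χ = II N p q (-ψ) χ := by
  unfold II
  congr 1
  have h := intervalIntegral.integral_comp_neg (a := -π) (b := π)
    (fun t : ℝ => Cn N p χ (t + ψ / 2) * Cn N q χ (t - ψ / 2))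
  rw [neg_neg] at h
  rw [← h]
  refine intervalIntegral.integral_congr fun t _ => ?_
  show Cn N p χ (((-t : ℝ) : ℂ) + ψ / 2) * Cn N q χ (((-t : ℝ) : ℂ) - ψ / 2) = _
  rw [← Cn_neg N p, ← Cn_neg N q]
  push_cast
  congr 2 <;> ring

lemma II_swap (N p q : ℕ) (ψ χ : ℂ) : II N p q ψ χ = II N q p ψ χ := by
  rw [II_flip]
  unfold II
  congr 1
  refine intervalIntegral.integral_congr fun t _ => ?_
  show Cn N p χ ((t : ℂ) + -ψ / 2) * Cn N q χ ((t : ℂ) - -ψ / 2) =
    Cn N q χ ((t : ℂ) + ψ / 2) * Cn N p χ ((t : ℂ) - ψ / 2)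
  rw [mul_comm]
  congr 2 <;> ring

lemma Rp_neg (N d : ℕ) (ψ : ℂ) : Rp N d (-ψ) = Rp N d ψ := by
  unfold Rp
  rw [Complex.cos_neg]

lemma kh_neg (N : ℕ) (ψ ψ' χ : ℂ) : kh N (-ψ) ψ' χ = kh N ψ ψ' χ := by
  unfold kh
  simp_rw [Rp_neg]

lemma kh_neg' (N : ℕ) (ψ ψ' χ : ℂ) : kh N ψ (-ψ') χ = kh N ψ ψ' χ := by
  unfold kh
  simp_rw [Rp_neg]

lemma kh_symm (N : ℕ) (ψ ψ' χ : ℂ) : kh N ψ ψ' χ = kh N ψ' ψ χ := by
  unfold kh
  refine sum_congr rfl fun d _ => ?_
  ring

/-- the exchange of the ends of the arcs -/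
lemma Cn_exch {N j e q : ℕ} (hq : q = j + e) (hN : 2 * q + 1 ≤ N) (χ : ℂ) (t : ℂ) :
    Cn N (N - 1 - j) χ (t + (π * (((N - 1 - q : ℕ) : ℂ) - q) / N) / 2) *
        Cn N j χ (t - (π * (((N - 1 - q : ℕ) : ℂ) - q) / N) / 2) =
      Cn N (N - 1 - q) χ (t + (π * (((N - 1 - j : ℕ) : ℂ) - j) / N) / 2) *
        Cn N q χ (t - (π * (((N - 1 - j : ℕ) : ℂ) - j) / N) / 2) := by
  subst hq
  obtain ⟨p, hp⟩ : ∃ p, N = p + (j + e) + 1 := ⟨N - 1 - (j + e), by omega⟩
  have hN0 : (N : ℂ) ≠ 0 := by
    have : N ≠ 0 := by omega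
    exact_mod_cast this
  have e1 : N - 1 - (j + e) = p := by omega
  have e2 : N - 1 - j = p + e := by omega
  have e3 : (N : ℂ) = p + (j + e) + 1 := by rw [hp]; push_cast; ring
  rw [e1, e2]
  unfold Cn
  rw [prod_range_add, prod_range_add (n := j)]
  have a1 : ∏ i ∈ range p, (2 * Complex.cos (χ / 2) + 2 * Complex.cos (t + (π * ((p : ℂ) -
        ((j + e : ℕ) : ℂ)) / N) / 2 - π * (2 * (i : ℂ) + 1 - ((p + e : ℕ) : ℂ)) / N)) =
      ∏ i ∈ range p, (2 * Complex.cos (χ / 2) + 2 * Complex.cos (t + (π * (((p + e : ℕ) : ℂ) -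
        j) / N) / 2 - π * (2 * (i : ℂ) + 1 - p) / N)) := by
    refine prod_congr rfl fun i _ => ?_
    congr 3
    push_cast
    ring
  have a2 : ∏ i ∈ range j, (2 * Complex.cos (χ / 2) + 2 * Complex.cos (t - (π * ((p : ℂ) -
        ((j + e : ℕ) : ℂ)) / N) / 2 - π * (2 * (i : ℂ) + 1 - j) / N)) =
      ∏ i ∈ range j, (2 * Complex.cos (χ / 2) + 2 * Complex.cos (t - (π * (((p + e : ℕ) : ℂ) -
        j) / N) / 2 - π * (2 * (i : ℂ) + 1 - ((j + e : ℕ) : ℂ)) / N)) := by
    refine prod_congr rfl fun i _ => ?_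
    congr 3
    push_cast
    ring
  have a3 : ∏ i ∈ range e, (2 * Complex.cos (χ / 2) + 2 * Complex.cos (t + (π * ((p : ℂ) -
        ((j + e : ℕ) : ℂ)) / N) / 2 - π * (2 * ((p + i : ℕ) : ℂ) + 1 - ((p + e : ℕ) : ℂ)) / N)) =
      ∏ i ∈ range e, (2 * Complex.cos (χ / 2) + 2 * Complex.cos (t - (π * (((p + e : ℕ) : ℂ) -
        j) / N) / 2 - π * (2 * ((j + i : ℕ) : ℂ) + 1 - ((j + e : ℕ) : ℂ)) / N)) := by
    refine prod_congr rfl fun i _ => ?_
    congr 3
    push_cast
    ring
  rw [a1, a2, a3]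
  ring


/-! ### The leading coefficient -/

/-- `B_n(θ) = ∏_{j<n} 2 cos (θ / 2 - π (2 j + 1 - n) / (2 N))` -/
noncomputable def Bn (N n : ℕ) (θ : ℂ) : ℂ :=
  ∏ j ∈ range n, (2 * Complex.cos (θ / 2 - π * (2 * (j : ℂ) + 1 - n) / (2 * N)))

lemma Bn_step (N n : ℕ) (θ : ℂ) : Bn N (n + 2) θ =
    Bn N n θ * (2 * Complex.cos θ + 2 * Complex.cos (π * ((n : ℂ) + 1) / N)) := by
  unfold Bn
  rw [prod_range_succ, prod_range_succ']
  have h1 : ∏ j ∈ range n, (2 * Complex.cos (θ / 2 - π * (2 * ((j + 1 : ℕ) : ℂ) + 1 -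
      ((n + 2 : ℕ) : ℂ)) / (2 * N))) =
      ∏ j ∈ range n, (2 * Complex.cos (θ / 2 - π * (2 * (j : ℂ) + 1 - n) / (2 * N))) := by
    refine prod_congr rfl fun j _ => ?_
    congr 3
    push_cast
    ring
  rw [h1, mul_assoc]
  congr 1
  have h2 : 2 * Complex.cos (θ / 2 - π * (2 * ((0 : ℕ) : ℂ) + 1 - ((n + 2 : ℕ) : ℂ)) / (2 * N)) *
      (2 * Complex.cos (θ / 2 - π * (2 * ((n + 1 : ℕ) : ℂ) + 1 - ((n + 2 : ℕ) : ℂ)) / (2 * N))) =
      2 * (2 * Complex.cos (θ / 2 + π * ((n : ℂ) + 1) / (2 * N)) *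
        Complex.cos (θ / 2 - π * ((n : ℂ) + 1) / (2 * N))) := by
    have e1 : θ / 2 - π * (2 * ((0 : ℕ) : ℂ) + 1 - ((n + 2 : ℕ) : ℂ)) / (2 * N) =
        θ / 2 + π * ((n : ℂ) + 1) / (2 * N) := by
      push_cast
      ring
    have e2 : θ / 2 - π * (2 * ((n + 1 : ℕ) : ℂ) + 1 - ((n + 2 : ℕ) : ℂ)) / (2 * N) =
        θ / 2 - π * ((n : ℂ) + 1) / (2 * N) := by
      push_cast
      ring
    rw [e1, e2]
    ring
  rw [h2]
  have h3 := Complex.cos_add_cos θ (π * ((n : ℂ) + 1) / N)
  rw [← mul_add, h3]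
  congr 3
  · congr 1
    ring
  · ring

lemma Tg_eq {N : ℕ} (hN : 1 ≤ N) (χ : ℂ) : ∀ e d : ℕ, d + e = (N - 1) / 2 →
    Tg N d χ = Bn N (N - 1 - 2 * d) χ
  | 0, d, hd => by
    have hd' : d = (N - 1) / 2 := by omega
    subst hd'
    unfold Tg
    rw [Ioc_self, prod_empty, mul_one]
    split_ifs with h
    · rw [show N - 1 - 2 * ((N - 1) / 2) = 1 by omega]
      simp [Bn]
    · rw [show N - 1 - 2 * ((N - 1) / 2) = 0 by omega]
      simp [Bn]
  | e + 1, d, hd => by
    have ih := Tg_eq hN χ e (d + 1) (by omega)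
    have h1 : Tg N d χ = Tg N (d + 1) χ * (2 * Complex.cos χ - 2 * Real.cos (2 * π * ((d + 1 : ℕ) : ℝ) / N)) := by
      unfold Tg
      rw [mul_assoc]
      congr 1
      have h2 : Ioc d ((N - 1) / 2) = insert (d + 1) (Ioc (d + 1) ((N - 1) / 2)) := by
        ext x
        simp only [mem_Ioc, mem_insert]
        omega
      rw [h2, prod_insert (by simp), mul_comm]
    rw [h1, ih, show N - 1 - 2 * d = N - 1 - 2 * (d + 1) + 2 by omega, Bn_step]
    congr 1
    have hN0 : (N : ℂ) ≠ 0 := by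
      have : N ≠ 0 := by omega
      exact_mod_cast this
    have e1 : ((N - 1 - 2 * (d + 1) : ℕ) : ℂ) = (N : ℂ) - 1 - 2 * (d + 1) := by
      rw [Nat.cast_sub (by omega), Nat.cast_sub (by omega)]
      push_cast
      ring
    have e2 : π * (((N - 1 - 2 * (d + 1) : ℕ) : ℂ) + 1) / N =
        (π : ℂ) - (2 * π * ((d : ℂ) + 1) / N) := by
      rw [e1]
      field_simp
      ring
    rw [e2, Complex.cos_pi_sub]
    push_cast
    ring

lemma Bn_eq (N n : ℕ) (θ : ℂ) :
    Bn N n θ = Complex.exp (Complex.I * θ / 2) ^ n * Pn N n (Complex.exp (-(Complex.I * θ))) := by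
  have h2 : ∀ j : ℕ, 2 * Complex.cos (θ / 2 - π * (2 * (j : ℂ) + 1 - n) / (2 * N)) =
      Complex.exp (Complex.I * θ / 2) *
        Complex.exp (-(Complex.I * (π * (2 * (j : ℂ) + 1 - n) / (2 * N)))) *
      (1 + Complex.exp (-(Complex.I * θ)) *
          Complex.exp (Complex.I * (π * (2 * (j : ℂ) + 1 - n) / N))) := by
    intro j
    rw [Complex.two_cos, mul_add, mul_one, ← Complex.exp_add, ← Complex.exp_add, ← Complex.exp_add]
    congr 2 <;> ring
  have h3 : ∏ j ∈ range n, Complex.exp (-(Complex.I * (π * (2 * (j : ℂ) + 1 - n) / (2 * N)))) = 1 := by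
    rw [← Complex.exp_sum]
    have h4 : ∀ m : ℕ, ∑ j ∈ range m, (2 * (j : ℂ) + 1 - n) = m * (m - n) := by
      intro m
      induction m with
      | zero => simp
      | succ m ih =>
        rw [sum_range_succ, ih]
        push_cast
        ring
    have h5 : ∑ j ∈ range n, -(Complex.I * (π * (2 * (j : ℂ) + 1 - n) / (2 * N))) =
        -(Complex.I * (π / (2 * N))) * ∑ j ∈ range n, (2 * (j : ℂ) + 1 - n) := by
      rw [mul_sum]
      refine sum_congr rfl fun j _ => ?_
      ring
    rw [h5, h4, sub_self, mul_zero, mul_zero, Complex.exp_zero]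
  unfold Bn Pn
  rw [prod_congr rfl fun j _ => h2 j, prod_mul_distrib, prod_mul_distrib, prod_const, card_range,
    h3, mul_one]

lemma bin_mul {N p q m : ℕ} (hN : p + q + 1 = N) (hpq : q ≤ p) (hm : m ≤ p - q) :
    bin N p m * bin N p (p - q - m) = bin N (p - q) m * ((Sd N p : ℂ) ^ 2 / (N * Sd N (p - q))) := by
  have h1 : (Sd N (p - m) : ℂ) * Sd N (q + m) = N := by
    have := Sd_mul (N := N) (n := p - m) (by omega)
    rw [show N - 1 - (p - m) = q + m by omega] at this
    exact_mod_cast this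
  have hN0 : (N : ℂ) ≠ 0 := by
    have : N ≠ 0 := by omega
    exact_mod_cast this
  have n1 := Sd_ne (N := N) (d := m) (by omega)
  have n2 := Sd_ne (N := N) (d := p - m) (by omega)
  have n3 := Sd_ne (N := N) (d := q + m) (by omega)
  have n4 := Sd_ne (N := N) (d := p - q - m) (by omega)
  have n5 := Sd_ne (N := N) (d := p - q) (by omega)
  unfold bin
  rw [if_pos (by omega), if_pos (by omega), if_pos hm, show p - (p - q - m) = q + m by omega, ← h1]
  field_simp

lemma Dp_coeff {N p q : ℕ} (hN : p + q + 1 = N) (hpq : q ≤ p) (χ : ℂ) :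
    (Dp N p χ).coeff (p - q) = (Sd N p : ℂ) ^ 2 / (N * Sd N (p - q)) * Bn N (p - q) χ := by
  rw [Bn_eq, Pn_eq _ (by omega)]
  unfold Dp
  rw [Polynomial.coeff_mul, Finset.Nat.sum_antidiagonal_eq_sum_range_succ_mk, mul_sum, mul_sum]
  refine sum_congr rfl fun m hm => ?_
  rw [mem_range] at hm
  show Polynomial.coeff _ m * Polynomial.coeff _ (p - q - m) = _
  rw [half_coeff p _ (by omega), half_coeff p _ (by omega)]
  have h1 := bin_mul hN hpq (m := m) (by omega)
  have h2 : Complex.exp (-(Complex.I * χ / 2)) ^ m * Complex.exp (Complex.I * χ / 2) ^ (p - q - m) =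
      Complex.exp (Complex.I * χ / 2) ^ (p - q) * Complex.exp (-(Complex.I * χ)) ^ m := by
    rw [← Complex.exp_nat_mul, ← Complex.exp_nat_mul, ← Complex.exp_nat_mul, ← Complex.exp_nat_mul,
      ← Complex.exp_add, ← Complex.exp_add]
    congr 1
    rw [Nat.cast_sub (m := m) (by omega)]
    ring
  linear_combination (Complex.exp (-(Complex.I * χ / 2)) ^ m *
    Complex.exp (Complex.I * χ / 2) ^ (p - q - m)) * h1 +
    (bin N (p - q) m * ((Sd N p : ℂ) ^ 2 / (N * Sd N (p - q)))) * h2

/-- the values of `R_d` at the nodes -/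
lemma Rp_node {N p q : ℕ} (hN : p + q + 1 = N) : Rp N q (π * ((p : ℂ) - q) / N) = Sd N (2 * q) := by
  have hN0 : (N : ℝ) ≠ 0 := by
    have : N ≠ 0 := by omega
    exact_mod_cast this
  have hNp : (N : ℝ) = p + q + 1 := by rw [← hN]; push_cast; ring
  have h0 : (π * ((p : ℂ) - q) / N) = ((π * ((p : ℝ) - q) / N : ℝ) : ℂ) := by push_cast; rfl
  unfold Rp
  rw [h0, Sd_eq, two_mul q, prod_range_add,
    ← Finset.prod_range_reflect (fun k : ℕ => 2 * Real.sin (π * ((k + 1 : ℕ) : ℝ) / N)) q,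
    ← prod_mul_distrib]
  push_cast only [Complex.ofReal_prod]
  refine prod_congr rfl fun j hj => ?_
  rw [mem_range] at hj
  rw [← Complex.ofReal_cos, ← Complex.ofReal_ofNat, ← Complex.ofReal_mul, ← Complex.ofReal_mul,
    ← Complex.ofReal_add]
  congr 1
  unfold phi
  rw [← mul_add, Real.cos_add_cos]
  have e1 : (π * ((p : ℝ) - q) / N + π * (2 * (j : ℝ) + 1) / N) / 2 =
      π / 2 - π * ((q - 1 - j + 1 : ℕ) : ℝ) / N := by
    rw [show q - 1 - j + 1 = q - j by omega, Nat.cast_sub (by omega)]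
    field_simp
    rw [hNp]
    ring
  have e2 : (π * ((p : ℝ) - q) / N - π * (2 * (j : ℝ) + 1) / N) / 2 =
      π / 2 - π * ((q + j + 1 : ℕ) : ℝ) / N := by
    push_cast
    field_simp
    rw [hNp]
    ring
  rw [e1, e2, Real.cos_pi_div_two_sub, Real.cos_pi_div_two_sub]
  ring

lemma Rp_zero {N p q d : ℕ} (hN : p + q + 1 = N) (hd : q < d) :
    Rp N d (π * ((p : ℂ) - q) / N) = 0 := by
  have hN0 : (N : ℂ) ≠ 0 := by
    have : N ≠ 0 := by omega
    exact_mod_cast this
  have hNp : (N : ℂ) = p + q + 1 := by rw [← hN]; push_cast; ring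
  unfold Rp
  apply prod_eq_zero (mem_range.2 hd)
  have e1 : (π * ((p : ℂ) - q) / N) = π - π * (2 * (q : ℂ) + 1) / N := by
    field_simp
    rw [hNp]
    ring
  rw [e1, Complex.cos_pi_sub]
  unfold phi
  push_cast
  ring

/-! ### The left side as a polynomial -/

/-- the left side -/
noncomputable def PL (N q : ℕ) (ψ' χ : ℂ) : Polynomial ℂ :=
  ∑ d ∈ range (q + 1), Polynomial.C (Rp N d ψ' * Tg N d χ / (Sd N d : ℂ) ^ 2) *
    (Polynomial.X ^ (q - d) * ∏ j ∈ range d, (Polynomial.X ^ 2 +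
      Polynomial.C (2 * (Real.cos (phi N j) : ℂ)) * Polynomial.X + 1))

lemma quad_deg (c : ℂ) : (Polynomial.X ^ 2 + Polynomial.C c * Polynomial.X + 1 :
    Polynomial ℂ).natDegree = 2 := by
  compute_degree!

lemma quad_lead (c : ℂ) : (Polynomial.X ^ 2 + Polynomial.C c * Polynomial.X + 1 :
    Polynomial ℂ).coeff 2 = 1 := by
  have h : (Polynomial.X ^ 2 + Polynomial.C c * Polynomial.X + 1 : Polynomial ℂ).Monic := by
    monicity!
  have h2 := h.coeff_natDegree
  rwa [quad_deg] at h2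

lemma prod_deg (N d : ℕ) : (∏ j ∈ range d, (Polynomial.X ^ 2 +
      Polynomial.C (2 * (Real.cos (phi N j) : ℂ)) * Polynomial.X + 1)).natDegree ≤ 2 * d ∧
    (∏ j ∈ range d, (Polynomial.X ^ 2 +
      Polynomial.C (2 * (Real.cos (phi N j) : ℂ)) * Polynomial.X + 1)).coeff (2 * d) = 1 := by
  induction d with
  | zero => simp
  | succ d ih =>
    rw [prod_range_succ]
    refine ⟨Polynomial.natDegree_mul_le.trans ?_, ?_⟩
    · rw [quad_deg]
      omega
    · rw [show 2 * (d + 1) = 2 * d + 2 by ring, Polynomial.coeff_mul_add_eq_of_natDegree_le ih.1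
        (quad_deg _).le, ih.2, quad_lead, one_mul]

lemma term_deg (N : ℕ) {q d : ℕ} (hd : d ≤ q) (a : ℂ) : (Polynomial.C a *
    (Polynomial.X ^ (q - d) * ∏ j ∈ range d, (Polynomial.X ^ 2 +
      Polynomial.C (2 * (Real.cos (phi N j) : ℂ)) * Polynomial.X + 1))).natDegree ≤ q + d := by
  refine (Polynomial.natDegree_C_mul_le _ _).trans (Polynomial.natDegree_mul_le.trans ?_)
  have h := (prod_deg N d).1
  rw [Polynomial.natDegree_X_pow]
  omega

lemma PL_deg (N q : ℕ) (ψ' χ : ℂ) : (PL N q ψ' χ).natDegree ≤ 2 * q := by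
  unfold PL
  refine Polynomial.natDegree_sum_le_of_forall_le _ _ fun d hd => ?_
  rw [mem_range] at hd
  exact (term_deg N (by omega) _).trans (by omega)

lemma PL_coeff (N q : ℕ) (ψ' χ : ℂ) :
    (PL N q ψ' χ).coeff (2 * q) = Rp N q ψ' * Tg N q χ / (Sd N q : ℂ) ^ 2 := by
  unfold PL
  rw [Polynomial.finsetSum_coeff, sum_range_succ, sum_eq_zero, zero_add]
  · rw [Polynomial.coeff_C_mul, Nat.sub_self, pow_zero, one_mul, (prod_deg N q).2, mul_one]
  · intro d hd
    rw [mem_range] at hd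
    apply Polynomial.coeff_eq_zero_of_natDegree_lt
    have := term_deg N (q := q) (d := d) (by omega) (Rp N d ψ' * Tg N d χ / (Sd N d : ℂ) ^ 2)
    omega

lemma PL_eval {N p q : ℕ} (hN : p + q + 1 = N) (hpq : q ≤ p) (ψ χ : ℂ) :
    Complex.exp (Complex.I * ψ) ^ q * kh N ψ (π * ((p : ℂ) - q) / N) χ =
      (PL N q (π * ((p : ℂ) - q) / N) χ).eval (Complex.exp (Complex.I * ψ)) := by
  have h1 : kh N ψ (π * ((p : ℂ) - q) / N) χ = ∑ d ∈ range (q + 1),
      Rp N d ψ * Rp N d (π * ((p : ℂ) - q) / N) * Tg N d χ / (Sd N d : ℂ) ^ 2 := by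
    unfold kh
    symm
    apply sum_subset
    · intro x hx
      rw [mem_range] at hx ⊢
      omega
    · intro d _ hd
      rw [mem_range] at hd
      rw [Rp_zero hN (by omega)]
      ring
  rw [h1]
  unfold PL
  rw [Polynomial.eval_finsetSum, mul_sum]
  refine sum_congr rfl fun d hd => ?_
  rw [mem_range] at hd
  rw [Polynomial.eval_mul, Polynomial.eval_C, Polynomial.eval_mul, Polynomial.eval_pow,
    Polynomial.eval_X, Polynomial.eval_prod]
  have h2 : Complex.exp (Complex.I * ψ) ^ d * Rp N d ψ = ∏ j ∈ range d, Polynomial.eval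
      (Complex.exp (Complex.I * ψ)) (Polynomial.X ^ 2 +
      Polynomial.C (2 * (Real.cos (phi N j) : ℂ)) * Polynomial.X + 1) := by
    unfold Rp
    rw [← card_range d, ← prod_const, card_range, ← prod_mul_distrib]
    refine prod_congr rfl fun j _ => ?_
    rw [Polynomial.eval_add, Polynomial.eval_add, Polynomial.eval_mul, Polynomial.eval_C,
      Polynomial.eval_pow, Polynomial.eval_X, Polynomial.eval_one, Complex.two_cos,
      show ψ * Complex.I = Complex.I * ψ by ring, show -ψ * Complex.I = -(Complex.I * ψ) by ring,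
      Complex.exp_neg]
    have := Complex.exp_ne_zero (Complex.I * ψ)
    field_simp
    ring
  rw [← h2]
  have h3 : Complex.exp (Complex.I * ψ) ^ q = Complex.exp (Complex.I * ψ) ^ (q - d) *
      Complex.exp (Complex.I * ψ) ^ d := by
    rw [← pow_add, Nat.sub_add_cancel (by omega)]
  rw [h3]
  ring

lemma PR_coeff {N p q : ℕ} (hN : p + q + 1 = N) (hpq : q ≤ p) (χ : ℂ) :
    (PR N p q χ).coeff (2 * q) = (Dp N p χ).coeff (p - q) := by
  unfold PR
  rw [half_coeff (2 * q) _ le_rfl, Dp_top (by omega), mul_one, show p + q - 2 * q = p - q by omega]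

lemma top_eq {N p q : ℕ} (hN : p + q + 1 = N) (hpq : q ≤ p) (χ : ℂ) :
    (PL N q (π * ((p : ℂ) - q) / N) χ).coeff (2 * q) = (PR N p q χ).coeff (2 * q) := by
  rw [PL_coeff, PR_coeff hN hpq, Dp_coeff hN hpq, Rp_node hN,
    Tg_eq (by omega) χ ((N - 1) / 2 - q) q (by omega), show N - 1 - 2 * q = p - q by omega]
  have h1 : (Sd N p : ℂ) * Sd N q = N := by
    have := Sd_mul (N := N) (n := p) (by omega)
    rw [show N - 1 - p = q by omega] at this
    exact_mod_cast this
  have h2 : (Sd N (p - q) : ℂ) * Sd N (2 * q) = N := by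
    have := Sd_mul (N := N) (n := p - q) (by omega)
    rw [show N - 1 - (p - q) = 2 * q by omega] at this
    exact_mod_cast this
  have hN0 : (N : ℂ) ≠ 0 := by
    have : N ≠ 0 := by omega
    exact_mod_cast this
  have n1 := Sd_ne (N := N) (d := q) (by omega)
  have n2 := Sd_ne (N := N) (d := p - q) (by omega)
  have h3 : (Sd N (2 * q) : ℂ) / (Sd N q : ℂ) ^ 2 = (Sd N p : ℂ) ^ 2 / (N * Sd N (p - q)) := by
    rw [div_eq_div_iff (pow_ne_zero 2 n1) (mul_ne_zero hN0 n2)]
    calc (Sd N (2 * q) : ℂ) * (N * Sd N (p - q)) = (Sd N (p - q) * Sd N (2 * q)) * N := by ring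
      _ = (Sd N p * Sd N q) * (Sd N p * Sd N q) := by rw [h1, h2]
      _ = (Sd N p : ℂ) ^ 2 * (Sd N q : ℂ) ^ 2 := by ring
  rw [← h3]
  ring

/-! ### The nodes -/

/-- numerators of the angles -/
def rr (N q i : ℕ) : ℤ := if i < q then (N : ℤ) - 1 - 2 * i else -((N : ℤ) - 1 - 2 * ((i : ℤ) - q))

lemma rr_inj {N q : ℕ} (hN : 2 * q + 1 ≤ N) {i j : ℕ} (hi : i < 2 * q) (hj : j < 2 * q)
    (h : Complex.exp (Complex.I * (π * (rr N q i : ℂ) / N)) =
      Complex.exp (Complex.I * (π * (rr N q j : ℂ) / N))) : i = j := by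
  rw [Complex.exp_eq_exp_iff_exists_int] at h
  obtain ⟨n, hn⟩ := h
  have hN0 : (N : ℂ) ≠ 0 := by
    have : N ≠ 0 := by omega
    exact_mod_cast this
  have hpi : (π : ℂ) ≠ 0 := by exact_mod_cast Real.pi_ne_zero
  have h1 : (rr N q i : ℂ) = rr N q j + n * (2 * N) := by
    have hI := Complex.I_ne_zero
    field_simp at hn
    linear_combination hn
  have h2 : rr N q i = rr N q j + n * (2 * N) := by exact_mod_cast h1
  have hn0 : n = 0 := by
    have b1 : rr N q i ≤ N - 1 ∧ -(N - 1 : ℤ) ≤ rr N q i := by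
      unfold rr
      split_ifs <;> omega
    have b2 : rr N q j ≤ N - 1 ∧ -(N - 1 : ℤ) ≤ rr N q j := by
      unfold rr
      split_ifs <;> omega
    have hN1 : (1 : ℤ) ≤ N := by omega
    by_contra hne
    rcases lt_or_gt_of_ne hne with h3 | h3
    · have : n * (2 * N) ≤ -1 * (2 * (N : ℤ)) := mul_le_mul_of_nonneg_right (by omega) (by omega)
      omega
    · have : 1 * (2 * (N : ℤ)) ≤ n * (2 * N) := mul_le_mul_of_nonneg_right (by omega) (by omega)
      omega
  rw [hn0, zero_mul, add_zero] at h2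
  unfold rr at h2
  split_ifs at h2 <;> omega

/-- the formula for `q ≤ p` -/
theorem main {N : ℕ} (χ : ℂ) (q : ℕ) : 2 * q + 1 ≤ N → ∀ ψ : ℂ,
    kh N ψ (π * (((N - 1 - q : ℕ) : ℂ) - q) / N) χ = II N (N - 1 - q) q ψ χ := by
  induction q using Nat.strong_induction_on with
  | _ q ih =>
    intro hN ψ
    have hNe : N - 1 - q + q + 1 = N := by omega
    have hpq : q ≤ N - 1 - q := by omega
    set P := PL N q (π * (((N - 1 - q : ℕ) : ℂ) - q) / N) χ - PR N (N - 1 - q) q χ with hP
    have heval : ∀ ψ : ℂ, P.eval (Complex.exp (Complex.I * ψ)) =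
        Complex.exp (Complex.I * ψ) ^ q * (kh N ψ (π * (((N - 1 - q : ℕ) : ℂ) - q) / N) χ -
          II N (N - 1 - q) q ψ χ) := by
      intro ψ
      rw [hP, Polynomial.eval_sub, ← PL_eval hNe hpq, ← II_eq hNe hpq]
      ring
    have hz : ∀ j < q, kh N (π * (((N - 1 - j : ℕ) : ℂ) - j) / N)
        (π * (((N - 1 - q : ℕ) : ℂ) - q) / N) χ =
        II N (N - 1 - q) q (π * (((N - 1 - j : ℕ) : ℂ) - j) / N) χ := by
      intro j hj
      rw [kh_symm, ih j hj (by omega)]
      unfold II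
      congr 1
      refine intervalIntegral.integral_congr fun t _ => ?_
      exact Cn_exch (e := q - j) (by omega) hN χ t
    have hcoef : ∀ m : ℕ, 2 * q ≤ m → P.coeff m = 0 := by
      intro m hm
      rcases hm.eq_or_lt with h | h
      · rw [← h, hP, Polynomial.coeff_sub, top_eq hNe hpq, sub_self]
      · rw [hP, Polynomial.coeff_sub, Polynomial.coeff_eq_zero_of_natDegree_lt
          ((PL_deg N q _ χ).trans_lt h), Polynomial.coeff_eq_zero_of_natDegree_lt
          ((PR_deg N _ q χ).trans_lt h), sub_self]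
    have hP0 : P = 0 := by
      apply Polynomial.eq_zero_of_degree_lt_of_eval_index_eq_zero (s := range (2 * q))
        (v := fun i => Complex.exp (Complex.I * (π * (rr N q i : ℂ) / N)))
      · intro i hi j hj h
        rw [mem_coe, mem_range] at hi hj
        exact rr_inj hN hi hj h
      · rw [card_range, Polynomial.degree_lt_iff_coeff_zero]
        exact hcoef
      · intro i hi
        rw [mem_range] at hi
        rw [heval]
        apply mul_eq_zero_of_right
        rw [sub_eq_zero]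
        by_cases h : i < q
        · have e : (π * (rr N q i : ℂ) / N) = (π * (((N - 1 - i : ℕ) : ℂ) - i) / N) := by
            unfold rr
            rw [if_pos h, Nat.cast_sub (by omega), Nat.cast_sub (by omega)]
            push_cast
            ring
          rw [e]
          exact hz i h
        · have e : (π * (rr N q i : ℂ) / N) =
              -(π * (((N - 1 - (i - q) : ℕ) : ℂ) - ((i - q : ℕ) : ℂ)) / N) := by
            unfold rr
            rw [if_neg h, Nat.cast_sub (by omega), Nat.cast_sub (by omega),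
              Nat.cast_sub (by omega : q ≤ i)]
            push_cast
            ring
          rw [e, kh_neg, ← II_flip]
          exact hz (i - q) (by omega)
    have h := heval ψ
    rw [hP0, Polynomial.eval_zero] at h
    have h2 := (mul_eq_zero.1 h.symm).resolve_left (pow_ne_zero _ (Complex.exp_ne_zero _))
    exact sub_eq_zero.1 h2

/-- PF -/
theorem pf : Pool.Agent.Y472.S_PF := by
  intro N p q ψ χ hN
  show _ = II N p q ψ χ
  rcases Nat.le_total q p with h | h
  · have := main (N := N) χ q (by omega) ψ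
    rw [show N - 1 - q = p by omega] at this
    exact this
  · have h1 := main (N := N) χ p (by omega) ψ
    rw [show N - 1 - p = q by omega] at h1
    rw [II_swap, ← h1, ← kh_neg']
    congr 1
    ring

end Pool.Agent.Y238.CG
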